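import Pool.Agent.H27.L1.H25.HK.Targets

/-!
# Gaussian sums converge
-/

set_option autoImplicit false

open Finset Set Pool.Agent.H27.L1.H25.HK

namespace Pool.Agent.H27.L1.H16.HK

variable {ι : Type} [Fintype ι]

theorem qf_pos {S : Matrix ι ι ℝ} (hS : S.PosDef) {v : ι → ℝ} (hv : v ≠ 0) : 0 < qf S v := by
  have := hS.dotProduct_mulVec_pos hv
  simpa [qf, dotProduct, Matrix.mulVec, Finset.mul_sum, mul_assoc] using this

theorem qf_smul (S : Matrix ι ι ℝ) (a : ℝ) (v : ι → ℝ) : qf S (a • v) = a ^ 2 * qf S v := by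
  simp only [qf, Pi.smul_apply, smul_eq_mul, Finset.mul_sum]
  exact Finset.sum_congr rfl fun i _ => Finset.sum_congr rfl fun j _ => by ring

theorem qf_cont (S : Matrix ι ι ℝ) : Continuous (qf S) := by
  unfold qf
  fun_prop

theorem qf_lower {S : Matrix ι ι ℝ} (hS : S.PosDef) :
    ∃ c : ℝ, 0 < c ∧ ∀ v : ι → ℝ, c * ∑ i, v i ^ 2 ≤ qf S v := by
  rcases isEmpty_or_nonempty ι with hι | hι
  · exact ⟨1, one_pos, fun v => by simp [qf]⟩
  · obtain ⟨u, hu, hmin⟩ := (isCompact_sphere (0 : ι → ℝ) 1).exists_isMinOn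
      (NormedSpace.sphere_nonempty.mpr zero_le_one) (qf_cont S).continuousOn
    have hu0 : u ≠ 0 := by
      rintro rfl
      simp at hu
    have hc0 := qf_pos hS hu0
    have hn : (0 : ℝ) < Fintype.card ι := by exact_mod_cast Fintype.card_pos
    refine ⟨qf S u / Fintype.card ι, div_pos hc0 hn, fun v => ?_⟩
    by_cases hv : v = 0
    · subst hv
      simp [qf]
    · have hvn : 0 < ‖v‖ := norm_pos_iff.mpr hv
      have h1 : qf S u ≤ qf S (‖v‖⁻¹ • v) := by
        apply hmin
        rw [mem_sphere_zero_iff_norm, norm_smul, norm_inv, norm_norm, inv_mul_cancel₀ hvn.ne']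
      rw [qf_smul] at h1
      have h2 : ∑ i, v i ^ 2 ≤ Fintype.card ι * ‖v‖ ^ 2 := by
        calc ∑ i, v i ^ 2 ≤ ∑ _i : ι, ‖v‖ ^ 2 := by
              apply Finset.sum_le_sum
              intro i _
              rw [← sq_abs (v i)]
              exact pow_le_pow_left₀ (abs_nonneg _) (norm_le_pi_norm v i) 2
          _ = _ := by simp
      have h3 : qf S u * ‖v‖ ^ 2 ≤ qf S v := by
        have := mul_le_mul_of_nonneg_right h1 (sq_nonneg ‖v‖)
        have e : (‖v‖⁻¹) ^ 2 * qf S v * ‖v‖ ^ 2 = qf S v := by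
          field_simp
        rwa [e] at this
      calc qf S u / Fintype.card ι * ∑ i, v i ^ 2
          ≤ qf S u / Fintype.card ι * (Fintype.card ι * ‖v‖ ^ 2) :=
            mul_le_mul_of_nonneg_left h2 (div_pos hc0 hn).le
        _ = qf S u * ‖v‖ ^ 2 := by field_simp
        _ ≤ _ := h3

theorem summable_exp_sq {a : ℝ} (ha : 0 < a) : Summable fun n : ℤ => Real.exp (-a * (n : ℝ) ^ 2) := by
  have h := (summable_jacobiTheta₂_term_iff 0 (Complex.I * ((a / Real.pi : ℝ) : ℂ))).mpr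
    (by simpa using div_pos ha Real.pi_pos)
  have h2 := h.norm
  refine h2.congr fun n => ?_
  rw [jacobiTheta₂_term, mul_zero, zero_add, Complex.norm_exp]
  congr 1
  have : (Real.pi : ℂ) * Complex.I * (n : ℂ) ^ 2 * (Complex.I * ((a / Real.pi : ℝ) : ℂ)) =
      ((-a * (n : ℝ) ^ 2 : ℝ) : ℂ) := by
    push_cast
    have hp : (Real.pi : ℂ) ≠ 0 := by exact_mod_cast Real.pi_ne_zero
    field_simp
    ring_nf
    rw [Complex.I_sq]
    ring
  rw [this, Complex.ofReal_re]

theorem summable_pi (f : ℤ → ℝ) (hf : ∀ n, 0 ≤ f n) (hs : Summable f) :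
    Summable fun m : ι → ℤ => ∏ i, f (m i) := by
  classical
  refine summable_of_sum_le (c := (∑' n, f n) ^ Fintype.card ι)
    (fun m => Finset.prod_nonneg fun i _ => hf _) fun s => ?_
  calc ∑ m ∈ s, ∏ i, f (m i)
      ≤ ∑ m ∈ Fintype.piFinset (fun i => s.image (fun m => m i)), ∏ i, f (m i) := by
        apply Finset.sum_le_sum_of_subset_of_nonneg
        · intro m hm
          rw [Fintype.mem_piFinset]
          exact fun i => Finset.mem_image_of_mem _ hm
        · exact fun m _ _ => Finset.prod_nonneg fun i _ => hf _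
    _ = ∏ i, ∑ n ∈ s.image (fun m => m i), f n := (Finset.prod_univ_sum _ _).symm
    _ ≤ ∏ _i : ι, ∑' n, f n := by
        apply Finset.prod_le_prod
        · exact fun i _ => Finset.sum_nonneg fun n _ => hf n
        · exact fun i _ => hs.sum_le_tsum _ fun n _ => hf n
    _ = _ := by simp

/-- (GS) -/
theorem gs : T_GS := by
  intro ι _ _ S hS
  obtain ⟨c, hc, hq⟩ := qf_lower hS
  refine ⟨fun m => ∏ i, (Real.exp (Real.pi * c) * Real.exp (-(Real.pi * c / 2) * (m i : ℝ) ^ 2)),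
    summable_pi (fun n => Real.exp (Real.pi * c) * Real.exp (-(Real.pi * c / 2) * (n : ℝ) ^ 2))
      (fun n => by positivity)
      ((summable_exp_sq (by positivity)).mul_left _), fun m x hx => ?_⟩
  simp only [← Real.exp_add, ← Real.exp_sum]
  apply Real.exp_le_exp.mpr
  have h1 := hq (fun i => x i + m i)
  have h2 : ∑ i, ((m i : ℝ) ^ 2 / 2 - 1) ≤ ∑ i, (x i + m i) ^ 2 := by
    apply Finset.sum_le_sum
    intro i _
    obtain ⟨h3, h4⟩ := hx i
    nlinarith [sq_nonneg (2 * x i + m i)]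
  have h3 : ∑ i, (Real.pi * c + -(Real.pi * c / 2) * (m i : ℝ) ^ 2) =
      -(Real.pi * (c * ∑ i, ((m i : ℝ) ^ 2 / 2 - 1))) := by
    rw [Finset.mul_sum, Finset.mul_sum, ← Finset.sum_neg_distrib]
    exact Finset.sum_congr rfl fun i _ => by ring
  rw [h3]
  have h4 := mul_le_mul_of_nonneg_left h2 hc.le
  have h5 := mul_le_mul_of_nonneg_left (h4.trans h1) Real.pi_pos.le
  linarith

end Pool.Agent.H27.L1.H16.HK
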