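import Pool.Agent.H27.L1.H25.HK.Targets

/-!
# n-dimensional Poisson summation
-/

set_option autoImplicit false
set_option linter.unusedSectionVars false

open Finset Set Pool.Agent.H27.L1.H25.HK MeasureTheory Filter Topology

namespace Pool.Agent.H27.L1.H16.HK

variable {ι : Type} [Fintype ι]

/-- the periodisation -/
noncomputable def per (f : (ι → ℝ) → ℂ) (x : ι → ℝ) : ℂ := ∑' m : ι → ℤ, f (fun i => x i + m i)

theorem per_add (f : (ι → ℝ) → ℂ) (x : ι → ℝ) (n : ι → ℤ) :
    per f (fun i => x i + n i) = per f x := by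
  unfold per
  rw [← (Equiv.addLeft n).tsum_eq (fun m : ι → ℤ => f (fun i => x i + m i))]
  apply tsum_congr
  intro m
  congr 1
  ext i
  simp [add_assoc]

/-- the projection to the torus -/
def pr (x : ι → ℝ) : UnitAddTorus ι := fun i => (x i : UnitAddCircle)

theorem pr_quot : IsOpenQuotientMap (pr : (ι → ℝ) → UnitAddTorus ι) :=
  IsOpenQuotientMap.piMap fun _ => QuotientAddGroup.isOpenQuotientMap_mk

/-- the function on the torus -/
noncomputable def Ft (f : (ι → ℝ) → ℂ) (t : UnitAddTorus ι) : ℂ :=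
  per f (Function.surjInv pr_quot.surjective t)

theorem pr_eq {x y : ι → ℝ} (h : pr x = pr y) : ∃ n : ι → ℤ, y = fun i => x i + n i := by
  have : ∀ i, ∃ n : ℤ, y i = x i + n := by
    intro i
    have h1 : (x i : UnitAddCircle) = y i := congrFun h i
    have h2 : ((y i - x i : ℝ) : UnitAddCircle) = 0 := by
      rw [AddCircle.coe_sub, h1, sub_self]
    obtain ⟨n, hn⟩ := (AddCircle.coe_eq_zero_iff (1 : ℝ)).mp h2
    refine ⟨n, ?_⟩
    simp only [zsmul_eq_mul, mul_one] at hn
    linarith
  choose n hn using this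
  exact ⟨n, funext hn⟩

theorem Ft_pr (f : (ι → ℝ) → ℂ) (x : ι → ℝ) : Ft f (pr x) = per f x := by
  unfold Ft
  obtain ⟨n, hn⟩ := pr_eq (Function.surjInv_eq pr_quot.surjective (pr x))
  rw [← per_add f _ n, ← hn]

section

variable {f : (ι → ℝ) → ℂ} {B : (ι → ℤ) → ℝ} (hf : Continuous f)
  (hB : ∀ (m : ι → ℤ) (x : ι → ℝ), (∀ i, x i ∈ Icc (0 : ℝ) 1) → ‖f (fun i => x i + m i)‖ ≤ B m)
  (hs : Summable B)

include hf hB hs

theorem per_cont : Continuous (per f) := by
  classical
  rw [continuous_iff_continuousAt]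
  intro x0
  -- a neighbourhood
  let U : Set (ι → ℝ) := Set.pi univ fun i => Ioo (x0 i - 1) (x0 i + 1)
  have hU : U ∈ 𝓝 x0 := by
    apply set_pi_mem_nhds finite_univ
    intro i _
    exact Ioo_mem_nhds (by linarith) (by linarith)
  let E : Finset (ι → ℤ) := Fintype.piFinset fun i => Finset.Icc (⌊x0 i - 1⌋) (⌊x0 i + 1⌋)
  have hBn : ∀ m, 0 ≤ B m := fun m =>
    (norm_nonneg _).trans (hB m (fun _ => 0) fun i => ⟨le_rfl, zero_le_one⟩)
  have hc : ContinuousOn (per f) U := by
    refine continuousOn_tsum (u := fun m => ∑ e ∈ E, B (e + m)) (fun m => ?_) ?_ ?_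
    · exact (hf.comp (by fun_prop)).continuousOn
    · apply summable_sum
      intro e _
      exact hs.comp_injective (Equiv.addLeft e).injective
    · intro m x hx
      have h1 : f (fun i => x i + m i) =
          f (fun i => Int.fract (x i) + (((fun i => ⌊x i⌋) + m : ι → ℤ) i : ℤ)) := by
        congr 1
        ext i
        simp only [Pi.add_apply, Int.cast_add]
        rw [← add_assoc, Int.fract_add_floor]
      rw [h1]
      refine (hB _ _ fun i => ⟨Int.fract_nonneg _, (Int.fract_lt_one _).le⟩).trans ?_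
      refine Finset.single_le_sum (f := fun e => B (e + m)) (fun e _ => hBn _) ?_
      rw [Fintype.mem_piFinset]
      intro i
      have := hx i (Set.mem_univ i)
      rw [Finset.mem_Icc]
      exact ⟨Int.floor_le_floor this.1.le, Int.floor_le_floor this.2.le⟩
  exact hc.continuousAt hU

theorem Ft_cont : Continuous (Ft f) := by
  rw [pr_quot.isQuotientMap.continuous_iff]
  have : Ft f ∘ pr = per f := funext (Ft_pr f)
  rw [this]
  exact per_cont hf hB hs

/-- the cube -/
def cube (m : ι → ℤ) : Set (ι → ℝ) := Set.pi univ fun i => Ioc (m i : ℝ) (m i + 1)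

omit hf hB hs in
theorem cube_meas (m : ι → ℤ) : MeasurableSet (cube m) :=
  MeasurableSet.univ_pi fun _ => measurableSet_Ioc

omit hf hB hs in
theorem cube_vol (m : ι → ℤ) : volume (cube m) = 1 := by
  unfold cube
  rw [Real.volume_pi_Ioc]
  simp

omit hf hB hs in
theorem iUnion_cube : ⋃ m : ι → ℤ, cube m = univ := by
  rw [eq_univ_iff_forall]
  intro x
  rw [mem_iUnion]
  refine ⟨fun i => ⌈x i⌉ - 1, fun i _ => ?_⟩
  push_cast
  exact ⟨by linarith [Int.ceil_lt_add_one (x i)], by linarith [Int.le_ceil (x i)]⟩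

omit hf hB hs in
theorem cube_disj : Pairwise (Function.onFun Disjoint (cube : (ι → ℤ) → Set (ι → ℝ))) := by
  intro m n hmn
  rw [Function.onFun, Set.disjoint_left]
  intro x hx hy
  apply hmn
  ext i
  have h1 := hx i (Set.mem_univ i)
  have h2 := hy i (Set.mem_univ i)
  have a1 : (m i : ℝ) < n i + 1 := lt_of_lt_of_le h1.1 h2.2
  have a2 : (n i : ℝ) < m i + 1 := lt_of_lt_of_le h2.1 h1.2
  have b1 : m i < n i + 1 := by exact_mod_cast a1
  have b2 : n i < m i + 1 := by exact_mod_cast a2
  omega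

omit hf hB hs in
theorem integral_cube (h : (ι → ℝ) → ℂ) (m : ι → ℤ) :
    ∫ x in cube m, h x = ∫ x in cube (0 : ι → ℤ), h (fun i => x i + m i) := by
  have h1 := (measurePreserving_add_right (volume : Measure (ι → ℝ))
    (fun i => (m i : ℝ))).setIntegral_preimage_emb
    (MeasurableEquiv.addRight (fun i => (m i : ℝ))).measurableEmbedding h (cube m)
  rw [← h1]
  have h2 : (fun x : ι → ℝ => x + fun i => (m i : ℝ)) ⁻¹' cube m = cube 0 := by
    ext x
    simp only [cube, Set.mem_preimage, Set.mem_pi, Set.mem_univ, forall_true_left, Set.mem_Ioc,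
      Pi.add_apply, Pi.zero_apply, Int.cast_zero]
    exact forall_congr' fun i => by constructor <;> rintro ⟨h1, h2⟩ <;> constructor <;> linarith
  rw [h2]
  rfl

/-- the character -/
noncomputable def ch (k : ι → ℤ) (x : ι → ℝ) : ℂ :=
  Complex.exp (-(2 * Real.pi * (∑ i, (k i : ℝ) * x i) : ℝ) * Complex.I)

omit hf hB hs in
theorem ch_norm (k : ι → ℤ) (x : ι → ℝ) : ‖ch k x‖ = 1 := by
  unfold ch
  rw [← Complex.ofReal_neg, Complex.norm_exp_ofReal_mul_I]

omit hf hB hs in
theorem ch_cont (k : ι → ℤ) : Continuous (ch k) := by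
  unfold ch
  fun_prop

omit hf hB hs in
theorem ch_add (k : ι → ℤ) (x : ι → ℝ) (m : ι → ℤ) : ch k (fun i => x i + m i) = ch k x := by
  unfold ch
  rw [Complex.exp_eq_exp_iff_exists_int]
  refine ⟨-∑ i, k i * m i, ?_⟩
  push_cast
  simp only [mul_add, Finset.sum_add_distrib]
  ring

omit hf hB hs in
theorem mFourier_pr (k : ι → ℤ) (x : ι → ℝ) : UnitAddTorus.mFourier (-k) (pr x) = ch k x := by
  unfold UnitAddTorus.mFourier pr ch
  rw [ContinuousMap.coe_mk]
  simp only [fourier_coe_apply, Pi.neg_apply]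
  rw [← Complex.exp_sum]
  congr 1
  push_cast
  rw [Finset.mul_sum, ← Finset.sum_neg_distrib, Finset.sum_mul]
  exact Finset.sum_congr rfl fun i _ => by ring

theorem coeff_eq (hi : Integrable f) (k : ι → ℤ) :
    UnitAddTorus.mFourierCoeff (Ft f) k = ∫ x : ι → ℝ, ch k x * f x := by
  have hint : Integrable (fun x => ch k x * f x) := by
    refine hi.bdd_mul (c := 1) (ch_cont k).aestronglyMeasurable ?_
    exact Eventually.of_forall fun x => (ch_norm k x).le
  have h1 := (hasSum_integral_iUnion (f := fun x => ch k x * f x) cube_meas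
    (cube_disj (ι := ι)) (by rw [iUnion_cube]; exact hint.integrableOn)).tsum_eq
  rw [iUnion_cube, setIntegral_univ] at h1
  rw [← h1, UnitAddTorus.mFourierCoeff_eq_integral (Ft f) k 0]
  have hset : {x : ι → ℝ | ∀ i, x i ∈ Ioc ((0 : ι → ℝ) i) ((0 : ι → ℝ) i + 1)} = cube 0 := by
    ext x
    simp [cube]
  rw [hset]
  have h2 : ∀ x : ι → ℝ, UnitAddTorus.mFourier (-k) (fun i => ((x i : ℝ) : UnitAddCircle)) •
      Ft f (fun i => ((x i : ℝ) : UnitAddCircle)) =
      ∑' m : ι → ℤ, ch k x * f (fun i => x i + m i) := by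
    intro x
    have e1 := mFourier_pr k x
    have e2 := Ft_pr f x
    unfold pr at e1 e2
    rw [e1, e2, per, smul_eq_mul, tsum_mul_left]
  simp only [h2]
  have h3 : ∀ m : ι → ℤ, ∫ x in cube m, ch k x * f x =
      ∫ x in cube (0 : ι → ℤ), ch k x * f (fun i => x i + m i) := by
    intro m
    rw [integral_cube]
    simp only [ch_add]
  simp only [h3]
  symm
  have hmeas : volume (cube (0 : ι → ℤ)) < ⊤ := by
    rw [cube_vol]
    exact ENNReal.one_lt_top
  have hbd : ∀ m : ι → ℤ, ∀ x ∈ cube (0 : ι → ℤ), ‖ch k x * f (fun i => x i + m i)‖ ≤ B m := by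
    intro m x hx
    rw [norm_mul, ch_norm, one_mul]
    refine hB m x fun i => ?_
    have := hx i (Set.mem_univ i)
    simp only [Pi.zero_apply, Int.cast_zero, zero_add] at this
    exact ⟨this.1.le, this.2⟩
  have hcm : ∀ m : ι → ℤ, Continuous fun x : ι → ℝ => ch k x * f (fun i => x i + m i) :=
    fun m => (ch_cont k).mul (hf.comp (by fun_prop))
  apply integral_tsum_of_summable_integral_norm
  · intro m
    refine Measure.integrableOn_of_bounded (M := B m) hmeas.ne
      (hcm m).aestronglyMeasurable ?_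
    exact (ae_restrict_iff' (cube_meas 0)).mpr (Eventually.of_forall (hbd m))
  · refine Summable.of_nonneg_of_le (fun m => integral_nonneg fun x => norm_nonneg _)
      (fun m => ?_) hs
    have h5 := norm_setIntegral_le_of_norm_le_const (μ := (volume : Measure (ι → ℝ)))
      (s := cube (0 : ι → ℤ)) (f := fun x => ‖ch k x * f (fun i => x i + m i)‖) (C := B m) hmeas
      (fun x hx => by rw [norm_norm]; exact hbd m x hx)
    rw [Measure.real, cube_vol, ENNReal.toReal_one, mul_one] at h5
    exact (le_abs_self _).trans h5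

end

/-- (PS) -/
theorem ps : T_PS := by
  intro ι _ f B hf hi hB hs hsum
  have hcoef : ∀ k, UnitAddTorus.mFourierCoeff (Ft f) k = ∫ x : ι → ℝ, ch k x * f x :=
    coeff_eq hf hB hs hi
  let F : C(UnitAddTorus ι, ℂ) := ⟨Ft f, Ft_cont hf hB hs⟩
  have hF : Summable (UnitAddTorus.mFourierCoeff F) := by
    refine hsum.congr fun k => ?_
    exact (hcoef k).symm
  have h := (UnitAddTorus.hasSum_mFourier_series_apply_of_summable hF (pr 0)).tsum_eq
  have h0 : F (pr 0) = ∑' m : ι → ℤ, f (fun i => (m i : ℝ)) := by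
    change Ft f (pr 0) = _
    rw [Ft_pr, per]
    simp
  rw [h0] at h
  rw [← h]
  apply tsum_congr
  intro k
  have e1 : UnitAddTorus.mFourier k (pr (0 : ι → ℝ)) = 1 := by
    have := mFourier_pr (-k) (0 : ι → ℝ)
    rw [neg_neg] at this
    rw [this, ch]
    simp
  rw [e1, smul_eq_mul, mul_one]
  exact hcoef k

end Pool.Agent.H27.L1.H16.HK
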